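import Mathlib
import Pool.Agent.Helper95.FL.StmtsG

set_option autoImplicit false

/-!
# Pieces G-Z and G-T of project FL
-/

namespace Pool.Agent.Helper11.FL

open Pool.Agent.Helper95.FL Pool.Agent.Helper95.FL.FD

lemma sum3 {M : Type*} [CommRing M] (f : Fin 3 → M) {t i j : Fin 3} (hti : t ≠ i)
    (htj : t ≠ j) (hij : i ≠ j) : ∑ x, f x = f i + f j + f t := by
  rw [Fin.sum_univ_three]
  revert t i j
  intro t i j
  fin_cases t <;> fin_cases i <;> fin_cases j <;> intro h1 h2 h3 <;> first
    | exact absurd rfl h1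
    | exact absurd rfl h2
    | exact absurd rfl h3
    | (simp only [Fin.zero_eta, Fin.mk_one, Fin.reduceFinMk]; done)
    | (simp only [Fin.zero_eta, Fin.mk_one, Fin.reduceFinMk]; ring)

variable {K : Type} [Field K] {m : ℕ} {F : FD K m}

/-- Entries of a product `C * B * D` when `C x t = 0` and `D t y = 0`. -/
lemma quad {t i j : Fin 3} (hti : t ≠ i) (htj : t ≠ j) (hij : i ≠ j) (C B D : Mat3 K)
    (x y : Fin 3) (hC : C x t = 0) (hD : D t y = 0) :
    (C * B * D) x y = (C x i * B i i + C x j * B j i) * D i y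
      + (C x i * B i j + C x j * B j j) * D j y := by
  rw [Matrix.mul_apply, sum3 _ hti htj hij, Matrix.mul_apply, Matrix.mul_apply, hD,
    sum3 _ hti htj hij, sum3 _ hti htj hij, hC]
  ring

lemma mulA {t i j : Fin 3} (hti : t ≠ i) (htj : t ≠ j) (hij : i ≠ j) (C B : Mat3 K)
    (x y : Fin 3) (hC : C x t = 0) :
    (C * B) x y = C x i * B i y + C x j * B j y := by
  rw [Matrix.mul_apply, sum3 _ hti htj hij, hC]
  ring

lemma det_row {t i j : Fin 3} (hti : t ≠ i) (htj : t ≠ j) (hij : i ≠ j) (M : Mat3 K)
    (h1 : M t t = 1) (h2 : M t i = 0) (h3 : M t j = 0) :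
    M.det = M i i * M j j - M i j * M j i := by
  rw [Matrix.det_fin_three]
  revert hti htj hij h1 h2 h3
  fin_cases t <;> fin_cases i <;> fin_cases j <;> intro h1 h2 h3 k1 k2 k3 <;> first
    | exact absurd rfl h1
    | exact absurd rfl h2
    | exact absurd rfl h3
    | (simp only [Fin.zero_eta, Fin.mk_one, Fin.reduceFinMk] at k1 k2 k3 ⊢
       rw [k1, k2, k3]; ring)

lemma A_diag (ε : Fin 3 → Bool) (i : Fin 3) : F.A ε i i = 1 := by simp [FD.A]

lemma A_z0 {i j : Fin 3} (hij : i ≠ j) : F.A z0 i j = F.θ := by simp [FD.A, hij, z0]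

/-- The determinant of `1 + C A` for `C` supported on `{i, j}`. -/
lemma det_C {t i j : Fin 3} (hti : t ≠ i) (htj : t ≠ j) (hij : i ≠ j) (C : Mat3 K)
    (hC : ∀ x, C x t = 0 ∧ C t x = 0) :
    (1 + C * F.A z0).det = (1 + C i i + C i j * F.θ) * (1 + C j i * F.θ + C j j)
      - (C i i * F.θ + C i j) * (C j i + C j j * F.θ) := by
  have hr : ∀ y, (C * F.A z0) t y = 0 := fun y => by
    rw [Matrix.mul_apply]
    exact Finset.sum_eq_zero fun x _ => by rw [(hC x).2, zero_mul]
  rw [det_row hti htj hij]
  · simp only [Matrix.add_apply, Matrix.one_apply_eq, Matrix.one_apply_ne hij,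
      Matrix.one_apply_ne hij.symm, mulA hti htj hij C _ _ _ (hC _).1, A_diag, A_z0 hij,
      A_z0 hij.symm]
    ring
  · rw [Matrix.add_apply, hr, Matrix.one_apply_eq, add_zero]
  · rw [Matrix.add_apply, hr, Matrix.one_apply_ne hti, add_zero]
  · rw [Matrix.add_apply, hr, Matrix.one_apply_ne htj, add_zero]

lemma mat_z0 {t : Fin 3} {g : F.Ch} {C : Mat3 K} (h : F.InH t g C) : mat g z0 = C := by
  rw [h.2.1]; simp [z0]

lemma h1C {t : Fin 3} {g : F.Ch} {C : Mat3 K} (h : F.InH t g C) :
    C + F.ct C + F.ct C * F.A z0 * C = 0 := by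
  have := (g z0).h1
  rw [show (g z0).C = C from mat_z0 h] at this
  exact this

lemma h2C {t : Fin 3} {g : F.Ch} {C : Mat3 K} (h : F.InH t g C) :
    C + F.ct C + C * F.A z0 * F.ct C = 0 := by
  have := (g z0).h2
  rw [show (g z0).C = C from mat_z0 h] at this
  exact this

theorem stZ : StZ := by
  intro K _ m F t i j hti htj hij g C hg hjj
  have hC := hg.1
  have e1 := congrFun (congrFun (h1C hg) j) j
  have e2 := congrFun (congrFun (h2C hg) j) j
  simp only [Matrix.add_apply, ct_apply, Matrix.zero_apply] at e1 e2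
  rw [quad hti htj hij (F.ct C) (F.A z0) C j j (by simp [ct_apply, (hC j).2]) (hC j).2] at e1
  rw [quad hti htj hij C (F.A z0) (F.ct C) j j (hC j).1 (by simp [ct_apply, (hC j).1])] at e2
  simp only [ct_apply, hjj, map_zero, zero_mul, mul_zero, add_zero, zero_add, A_diag, mul_one,
    mul_eq_zero, map_eq_zero_iff F.st F.st.injective] at e1 e2
  have hij0 : C i j = 0 := by tauto
  have hji0 : C j i = 0 := by tauto
  have hCs : C = sg i (C i i) := by
    ext x y
    simp only [sg]
    by_cases hx : x = i
    · by_cases hy : y = i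
      · subst hx; subst hy; simp
      · rw [if_neg (fun h => hy h.2), hx]
        have : y = j ∨ y = t := by
          revert hy hti htj hij; clear * -; revert t i j y; decide
        rcases this with rfl | rfl
        · exact hij0
        · exact (hC i).1
    · rw [if_neg (fun h => hx h.1)]
      have : x = j ∨ x = t := by
        revert hx hti htj hij; clear * -; revert t i j x; decide
      rcases this with rfl | rfl
      · have : y = i ∨ y = x ∨ y = t := by
          revert hti htj hij; clear * -; revert t i x y; decide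
        rcases this with rfl | rfl | rfl
        · exact hji0
        · exact hjj
        · exact (hC x).1
      · exact (hC y).2
  have hdet := det_C (F := F) hti htj hij C hC
  rw [hij0, hji0, hjj] at hdet
  have h3 := hg.2.2
  rw [show (fun _ => false : Fin 3 → Bool) = z0 from rfl, hdet] at h3
  have hc : F.τ (C i i) = C i i := by simpa using h3
  refine ⟨C i i, hc, fun ε => ?_⟩
  rw [hg.2.1]
  have htm : F.tm C = sg i (C i i) := by
    rw [hCs]
    ext x y
    simp only [tm_apply, sg]
    by_cases h : x = i ∧ y = i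
    · simp [h, hc]
    · simp [h]
  by_cases h2 : ε t = true
  · simp only [h2, if_true]; exact htm
  · simp only [h2]; exact hCs

/-- The chamber with the constant matrix `c E_ss`. -/
def uc (F : FD K m) (s : Fin 3) (c : K) (h : c + F.st c + c * F.st c = 0) : F.Ch := fun ε =>
  { C := sg s c
    h1 := by
      rw [ct_sg, sg_mul, ← sg_add, ← sg_add, mul_comm (F.st c) c, h, sg_zero]
    h2 := by rw [ct_sg, sg_mul, ← sg_add, ← sg_add, h, sg_zero] }

lemma sg_A_sg {s t : Fin 3} (c d : K) (B : Mat3 K) (x y : Fin 3) :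
    (sg s c * B * sg t d) x y = if x = s ∧ y = t then c * B s t * d else 0 := by
  simp only [Matrix.mul_apply, sg]
  by_cases hx : x = s
  · by_cases hy : y = t
    · subst hx; subst hy
      simp
    · simp [hy]
  · simp [hx]

theorem stT : StT := by
  intro K _ m F t i j hti htj hij g C hg hji hfix
  have hC := hg.1
  set p := C i i with hp
  set c := C j j with hc
  set q := C i j with hq
  have e1 := congrFun (congrFun (h2C hg) j) j
  have e2 := congrFun (congrFun (h2C hg) i) j
  simp only [Matrix.add_apply, ct_apply, Matrix.zero_apply] at e1 e2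
  rw [quad hti htj hij C (F.A z0) (F.ct C) j j (hC j).1 (by simp [ct_apply, (hC j).1])] at e1
  rw [quad hti htj hij C (F.A z0) (F.ct C) i j (hC i).1 (by simp [ct_apply, (hC j).1])] at e2
  simp only [ct_apply, hji, map_zero, mul_zero, zero_mul, add_zero, zero_add, A_diag, mul_one,
    ← hc, ← hp, ← hq, A_z0 hij] at e1 e2
  have hqe : q = p * F.θ * c := by
    linear_combination (1 + c) * e2 - (p * F.θ + q) * e1
  have hdet := det_C (F := F) hti htj hij C hC
  rw [hji, ← hc, ← hp, ← hq, hqe] at hdet
  have hdet' : (1 + C * F.A z0).det = (1 + p) * (1 + c) := by rw [hdet]; ring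
  have hne : (1 + C * F.A z0).det ≠ 0 := by
    have hd := F.det_cmul C (F.ct C)
    rw [h2C hg] at hd
    simp only [zero_mul, add_zero, Matrix.det_one] at hd
    intro h; rw [h, zero_mul] at hd; exact one_ne_zero hd
  rw [hdet'] at hne
  have h3 := hg.2.2
  rw [show (fun _ => false : Fin 3 → Bool) = z0 from rfl, hdet', map_mul, map_add, map_add,
    map_one] at h3
  have hp1 : 1 + p ≠ 0 := left_ne_zero_of_mul hne
  have hc1 : 1 + c ≠ 0 := right_ne_zero_of_mul hne
  have hboth : F.τ p = p ∧ F.τ c = c := by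
    rcases hfix with h | h
    · refine ⟨h, ?_⟩
      rw [h] at h3
      exact add_left_cancel (mul_left_cancel₀ hp1 h3)
    · refine ⟨?_, h⟩
      rw [h] at h3
      exact add_left_cancel (mul_right_cancel₀ hc1 h3)
  obtain ⟨hτp, hτc⟩ := hboth
  have hcc : c + F.st c + c * F.st c = 0 := e1
  set v : F.Ch := uc F j c hcc with hv
  have hvm : ∀ ε, mat v ε = sg j c := fun ε => rfl
  have key : ∀ ε, mat g ε = sg i p + sg j c + sg i p * F.A ε * sg j c := by
    intro ε
    rw [hg.2.1]
    have hA := F.A_off t ε hti.symm htj.symm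
    ext x y
    rw [Matrix.add_apply, Matrix.add_apply, sg_A_sg]
    have hx : x = i ∨ x = j ∨ x = t := by
      revert hti htj hij; clear * -; revert t i j x; decide
    have hy : y = i ∨ y = j ∨ y = t := by
      revert hti htj hij; clear * -; revert t i j y; decide
    simp only [sg]
    rw [hA, A_z0 hij]
    by_cases h2 : ε t = true
    · simp only [h2, if_true, tm_apply]
      rcases hx with rfl | rfl | rfl <;> rcases hy with rfl | rfl | rfl <;>
        simp [hij, hij.symm, hti, hti.symm, htj, htj.symm, (hC _).1, (hC _).2, hji, hτp, hτc,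
          ← hc, ← hp, ← hq, hqe]
    · simp only [h2]
      rcases hx with rfl | rfl | rfl <;> rcases hy with rfl | rfl | rfl <;>
        simp [hij, hij.symm, hti, hti.symm, htj, htj.symm, (hC _).1, (hC _).2, hji,
          ← hc, ← hp, ← hq, hqe]
  refine ⟨g * v⁻¹, ⟨p, hτp, fun ε => ?_⟩, v, ⟨c, hτc, hvm⟩, by group⟩
  rw [mat_mul, mat_inv, hvm, key, ct_sg]
  have hz : sg j c + sg j (F.st c) + sg j c * F.A ε * sg j (F.st c) = (0 : Mat3 K) := by
    rw [sg_mul, ← sg_add, ← sg_add, hcc, sg_zero]
  calc _ = sg i p + (sg j c + sg j (F.st c) + sg j c * F.A ε * sg j (F.st c))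
        + sg i p * F.A ε * (sg j c + sg j (F.st c) + sg j c * F.A ε * sg j (F.st c)) := by
        noncomm_ring
    _ = sg i p := by rw [hz]; simp

end Pool.Agent.Helper11.FL
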